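import Pool.Agent.H458.AR.Num

/-!
# Part LQ of project AR (helper588 for helper458): counting matrices over a finite field
-/

set_option autoImplicit false

namespace Pool.Agent.H588.AR458

open Matrix Polynomial Finset
open scoped Classical
open Pool.Agent.H458.AR

section one

variable {F : Type} [Field F]

lemma quad_apply (P B : Matrix (Fin 3) (Fin 3) F) (i j : Fin 3) :
    (Pᵀ * B * P) i j = (fun l => P l i) ⬝ᵥ B *ᵥ (fun l => P l j) := by
  simp only [Matrix.mul_apply, Matrix.transpose_apply, dotProduct, mulVec, Fin.sum_univ_three]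
  ring

lemma quad_mulVec (P B : Matrix (Fin 3) (Fin 3) F) (v : Fin 3 → F) :
    v ⬝ᵥ (Pᵀ * B * P) *ᵥ v = (P *ᵥ v) ⬝ᵥ B *ᵥ (P *ᵥ v) := by
  rw [← Matrix.mulVec_mulVec, ← Matrix.mulVec_mulVec, Matrix.dotProduct_mulVec,
    Matrix.vecMul_transpose]

/-- extension to a basis -/
lemma ext_basis {ξ ξ' : Fin 3 → F} (h : LinearIndependent F ![ξ, ξ']) :
    ∃ P : Matrix (Fin 3) (Fin 3) F, P.det ≠ 0 ∧ (fun l => P l 0) = ξ ∧ (fun l => P l 2) = ξ' := by
  have key : ∀ η : Fin 3 → F, (Matrix.of fun l j => (![ξ, η, ξ'] j) l).det =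
      η 0 * (ξ 2 * ξ' 1 - ξ 1 * ξ' 2) + η 1 * (ξ 0 * ξ' 2 - ξ 2 * ξ' 0) +
        η 2 * (ξ 1 * ξ' 0 - ξ 0 * ξ' 1) := by
    intro η
    rw [Matrix.det_fin_three]
    simp
    ring
  by_contra hcon
  push Not at hcon
  have hz : ∀ η : Fin 3 → F, η 0 * (ξ 2 * ξ' 1 - ξ 1 * ξ' 2) + η 1 * (ξ 0 * ξ' 2 - ξ 2 * ξ' 0) +
        η 2 * (ξ 1 * ξ' 0 - ξ 0 * ξ' 1) = 0 := by
    intro η
    rw [← key η]
    by_contra h1
    exact hcon _ h1 (by ext l; simp) (by ext l; simp)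
  have z0 : ξ 2 * ξ' 1 - ξ 1 * ξ' 2 = 0 := by simpa using hz ![1, 0, 0]
  have z1 : ξ 0 * ξ' 2 - ξ 2 * ξ' 0 = 0 := by simpa using hz ![0, 1, 0]
  have z2 : ξ 1 * ξ' 0 - ξ 0 * ξ' 1 = 0 := by simpa using hz ![0, 0, 1]
  have hξ : ξ ≠ 0 := by
    have := h.ne_zero 0
    simpa using this
  rw [LinearIndependent.pair_iff' hξ] at h
  obtain ⟨i, hi⟩ : ∃ i, ξ i ≠ 0 := by
    by_contra h1
    push Not at h1
    exact hξ (funext h1)
  apply h (ξ' i / ξ i)
  ext j
  simp only [Pi.smul_apply, smul_eq_mul]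
  rw [div_mul_eq_mul_div, div_eq_iff hi]
  fin_cases i <;> fin_cases j <;> simp only [Fin.zero_eta, Fin.mk_one, Fin.reduceFinMk] <;>
    first
    | ring1
    | linear_combination z0
    | linear_combination -z0
    | linear_combination z1
    | linear_combination -z1
    | linear_combination z2
    | linear_combination -z2

lemma chR_quad {G B P : Matrix (Fin 3) (Fin 3) F} {s : F} (h : ChR G B s 0) :
    ChR (Pᵀ * G * P) (Pᵀ * B * P) s 0 := by
  unfold ChR at h ⊢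
  have e : (X : F[X]) • (Pᵀ * G * P).map (C : F →+* F[X]) - (Pᵀ * B * P).map (C : F →+* F[X]) =
      (P.map (C : F →+* F[X]))ᵀ *
        ((X : F[X]) • G.map (C : F →+* F[X]) - B.map (C : F →+* F[X])) *
        P.map (C : F →+* F[X]) := by
    rw [Matrix.map_mul, Matrix.map_mul, Matrix.map_mul, Matrix.map_mul, Matrix.transpose_map,
      Matrix.mul_sub, Matrix.sub_mul, Matrix.mul_smul, Matrix.smul_mul]
  rw [e, Matrix.det_mul, Matrix.det_mul, Matrix.det_transpose, h, Matrix.det_mul, Matrix.det_mul,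
    Matrix.det_transpose]
  have e2 : (P.map (C : F →+* F[X])).det = C P.det := by
    rw [← RingHom.mapMatrix_apply, ← RingHom.map_det]
  rw [e2, C_mul, C_mul]
  ring

/-- the shape of the matrices -/
lemma shape {H B : Matrix (Fin 3) (Fin 3) F} {s : F}
    (hs : ∀ z : F, z ^ 2 + s ≠ 0) (hH : H.IsSymm) (hB : B.IsSymm) (hH0 : H 0 0 = 0)
    (hH2 : H 2 2 = 0) (hB0 : B 0 0 = 0) (hB2 : B 2 2 = 0) (hdet : H.det ≠ 0)
    (hch : ChR H B s 0) :
    H 0 2 ≠ 0 ∧ B 0 2 = 0 ∧ B 0 1 ≠ 0 ∧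
      2 * B 0 1 * B 1 2 = (2 * H 0 1 * H 1 2 - H 1 1 * H 0 2) * s ∧
      B 1 1 * H 0 2 = 2 * (H 0 1 * B 1 2 + H 1 2 * B 0 1) := by
  have s1 : H 1 0 = H 0 1 := hH.apply 0 1
  have s2 : H 2 0 = H 0 2 := hH.apply 0 2
  have s3 : H 2 1 = H 1 2 := hH.apply 1 2
  have t1 : B 1 0 = B 0 1 := hB.apply 0 1
  have t2 : B 2 0 = B 0 2 := hB.apply 0 2
  have t3 : B 2 1 = B 1 2 := hB.apply 1 2
  have hd : H.det = H 0 2 * (2 * H 0 1 * H 1 2 - H 1 1 * H 0 2) := by
    rw [Matrix.det_fin_three, s1, s2, s3, hH0, hH2]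
    ring
  have hid : (X * C (H 0 2) - C (B 0 2)) * (2 * (X * C (H 0 1) - C (B 0 1)) *
      (X * C (H 1 2) - C (B 1 2)) - (X * C (H 1 1) - C (B 1 1)) *
      (X * C (H 0 2) - C (B 0 2))) = C H.det * (X ^ 3 + C s * X) := by
    have h := hch
    unfold ChR at h
    rw [Matrix.det_fin_three] at h
    simp only [Matrix.sub_apply, Matrix.smul_apply, Matrix.map_apply, smul_eq_mul, s1, s2, s3,
      t1, t2, t3, hH0, hH2, hB0, hB2, map_zero, mul_zero, sub_zero, zero_mul,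
      add_zero] at h
    linear_combination h
  rw [hd] at hdet
  have hg : H 0 2 ≠ 0 := left_ne_zero_of_mul hdet
  have hΔ : 2 * H 0 1 * H 1 2 - H 1 1 * H 0 2 ≠ 0 := right_ne_zero_of_mul hdet
  have hc : B 0 2 = 0 := by
    have h := congrArg (Polynomial.eval (B 0 2 / H 0 2)) hid
    simp only [eval_mul, eval_sub, eval_X, eval_C, eval_add, eval_pow, div_mul_cancel₀ _ hg,
      sub_self, zero_mul] at h
    rw [hd] at h
    have h3 : B 0 2 / H 0 2 * ((B 0 2 / H 0 2) ^ 2 + s) = 0 := by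
      have h4 : (B 0 2 / H 0 2) ^ 3 + s * (B 0 2 / H 0 2) = 0 :=
        (mul_eq_zero.1 h.symm).resolve_left hdet
      linear_combination h4
    have h5 := (mul_eq_zero.1 h3).resolve_right (hs _)
    rwa [div_eq_zero_iff, or_iff_left hg] at h5
  have hid2 : 2 * (X * C (H 0 1) - C (B 0 1)) *
      (X * C (H 1 2) - C (B 1 2)) - (X * C (H 1 1) - C (B 1 1)) * (X * C (H 0 2)) =
      C (2 * H 0 1 * H 1 2 - H 1 1 * H 0 2) * (X ^ 2 + C s) := by
    have hne : (X * C (H 0 2) : F[X]) ≠ 0 := mul_ne_zero X_ne_zero (C_ne_zero.2 hg)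
    apply mul_left_cancel₀ hne
    rw [hd, hc, C_0, sub_zero, C_mul] at hid
    rw [hid]
    ring
  have he0 : 2 * B 0 1 * B 1 2 = (2 * H 0 1 * H 1 2 - H 1 1 * H 0 2) * s := by
    have h := congrArg (Polynomial.eval 0) hid2
    simp only [eval_mul, eval_sub, eval_X, eval_C, eval_add, eval_pow, eval_ofNat, zero_mul,
      zero_sub] at h
    linear_combination h
  have hs0 : s ≠ 0 := by
    have := hs 0
    simpa using this
  refine ⟨hg, hc, ?_, he0, ?_⟩
  · intro h0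
    rw [h0] at he0
    apply mul_ne_zero hΔ hs0
    rw [← he0]
    ring
  · have h := congrArg (fun p => Polynomial.eval 0 (Polynomial.derivative p)) hid2
    simp only [derivative_mul, derivative_sub, derivative_X, derivative_C, derivative_add,
      derivative_X_pow, derivative_ofNat, eval_mul, eval_sub, eval_X, eval_C, eval_add, eval_pow,
      eval_ofNat, zero_mul, mul_zero, zero_sub, sub_zero, zero_add,
      add_zero, one_mul] at h
    linear_combination h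

end one

section two

variable {F : Type} [Field F] [Fintype F]

/-- the number of the isotropic vectors -/
lemma card_iso {G P : Matrix (Fin 3) (Fin 3) F} (h2 : (2 : F) ≠ 0) (hG : G.IsSymm)
    (hG0 : G.det ≠ 0) (hP : P.det ≠ 0) (h00 : (Pᵀ * G * P) 0 0 = 0)
    (h22 : (Pᵀ * G * P) 2 2 = 0) :
    (univ.filter fun v : Fin 3 → F => v ⬝ᵥ G *ᵥ v = 0).card ≤ Fintype.card F ^ 2 := by
  obtain ⟨H, hH⟩ : ∃ H, H = Pᵀ * G * P := ⟨_, rfl⟩
  rw [← hH] at h00 h22
  have hHs : H.IsSymm := by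
    rw [hH, Matrix.IsSymm, Matrix.transpose_mul, Matrix.transpose_mul, Matrix.transpose_transpose,
      hG.eq, Matrix.mul_assoc]
  have s1 : H 1 0 = H 0 1 := hHs.apply 0 1
  have s2 : H 2 0 = H 0 2 := hHs.apply 0 2
  have s3 : H 2 1 = H 1 2 := hHs.apply 1 2
  have hHd : H.det ≠ 0 := by
    rw [hH, Matrix.det_mul, Matrix.det_mul, Matrix.det_transpose]
    exact mul_ne_zero (mul_ne_zero hP hG0) hP
  have hd : H.det = H 0 2 * (2 * H 0 1 * H 1 2 - H 1 1 * H 0 2) := by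
    rw [Matrix.det_fin_three, s1, s2, s3, h00, h22]
    ring
  rw [hd] at hHd
  have hg : H 0 2 ≠ 0 := left_ne_zero_of_mul hHd
  have hΔ : 2 * H 0 1 * H 1 2 - H 1 1 * H 0 2 ≠ 0 := right_ne_zero_of_mul hHd
  have hPP : P * P⁻¹ = 1 := Matrix.mul_nonsing_inv P (Ne.isUnit hP)
  have hPv : ∀ v : Fin 3 → F, P *ᵥ (P⁻¹ *ᵥ v) = v := fun v => by
    rw [Matrix.mulVec_mulVec, hPP, Matrix.one_mulVec]
  -- the equation in the new coordinates
  have hq : ∀ v : Fin 3 → F, v ⬝ᵥ G *ᵥ v = 0 → ∀ u : Fin 3 → F, u = P⁻¹ *ᵥ v →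
      2 * (H 0 2 * u 0 + H 1 2 * u 1) * u 2 + u 1 * (2 * H 0 1 * u 0 + H 1 1 * u 1) = 0 := by
    intro v hv u hu
    have h1 : u ⬝ᵥ H *ᵥ u = 0 := by
      rw [hH, quad_mulVec, hu, hPv, hv]
    rw [← h1]
    simp only [dotProduct, mulVec, Fin.sum_univ_three, s1, s2, s3, h00, h22]
    ring
  -- degenerate points
  have hdeg : ∀ v : Fin 3 → F, v ⬝ᵥ G *ᵥ v = 0 → ∀ u : Fin 3 → F, u = P⁻¹ *ᵥ v →
      H 0 2 * u 0 + H 1 2 * u 1 = 0 → u 0 = 0 ∧ u 1 = 0 := by
    intro v hv u hu h0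
    have h1 := hq v hv u hu
    rw [h0, mul_zero, zero_mul, zero_add] at h1
    have h3 : (2 * H 0 1 * H 1 2 - H 1 1 * H 0 2) * u 1 ^ 2 = 0 := by
      linear_combination (2 * H 0 1 * u 1) * h0 - H 0 2 * h1
    have h4 : u 1 = 0 := by
      have := (mul_eq_zero.1 h3).resolve_left hΔ
      exact pow_eq_zero_iff (two_ne_zero) |>.1 this
    refine ⟨?_, h4⟩
    rw [h4, mul_zero, add_zero] at h0
    exact (mul_eq_zero.1 h0).resolve_left hg
  obtain ⟨f, hf⟩ : ∃ f : (Fin 3 → F) → F × F, f = fun v =>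
    if H 0 2 * (P⁻¹ *ᵥ v) 0 + H 1 2 * (P⁻¹ *ᵥ v) 1 = 0 then
      (-(H 1 2 * (P⁻¹ *ᵥ v) 2) / H 0 2, (P⁻¹ *ᵥ v) 2)
    else ((P⁻¹ *ᵥ v) 0, (P⁻¹ *ᵥ v) 1) := ⟨_, rfl⟩
  have hinj : Set.InjOn f (univ.filter fun v : Fin 3 → F => v ⬝ᵥ G *ᵥ v = 0) := by
    intro v hv v' hv' hvv
    have hv1 : v ⬝ᵥ G *ᵥ v = 0 := by simpa using hv
    have hv2 : v' ⬝ᵥ G *ᵥ v' = 0 := by simpa using hv'
    obtain ⟨u, hu⟩ : ∃ u, u = P⁻¹ *ᵥ v := ⟨_, rfl⟩
    obtain ⟨u', hu'⟩ : ∃ u', u' = P⁻¹ *ᵥ v' := ⟨_, rfl⟩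
    have q1 := hq v hv1 u hu
    have q2 := hq v' hv2 u' hu'
    have d1 := hdeg v hv1 u hu
    have d2 := hdeg v' hv2 u' hu'
    rw [hf] at hvv
    simp only [← hu, ← hu'] at hvv
    have huu : u = u' := by
      by_cases a1 : H 0 2 * u 0 + H 1 2 * u 1 = 0
      · by_cases a2 : H 0 2 * u' 0 + H 1 2 * u' 1 = 0
        · rw [if_pos a1, if_pos a2, Prod.mk.injEq] at hvv
          ext i
          fin_cases i
          · exact (d1 a1).1.trans (d2 a2).1.symm
          · exact (d1 a1).2.trans (d2 a2).2.symm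
          · exact hvv.2
        · exfalso
          rw [if_pos a1, if_neg a2, Prod.mk.injEq] at hvv
          apply a2
          rw [← hvv.1, ← hvv.2]
          field_simp
          ring
      · by_cases a2 : H 0 2 * u' 0 + H 1 2 * u' 1 = 0
        · exfalso
          rw [if_neg a1, if_pos a2, Prod.mk.injEq] at hvv
          apply a1
          rw [hvv.1, hvv.2]
          field_simp
          ring
        · rw [if_neg a1, if_neg a2, Prod.mk.injEq] at hvv
          obtain ⟨b0, b1⟩ := hvv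
          ext i
          fin_cases i
          · exact b0
          · exact b1
          · show u 2 = u' 2
            rw [b0, b1] at q1 a1
            have h5 : 2 * (H 0 2 * u' 0 + H 1 2 * u' 1) * (u 2 - u' 2) = 0 := by
              linear_combination q1 - q2
            have h6 := (mul_eq_zero.1 h5).resolve_left (mul_ne_zero h2 a1)
            exact sub_eq_zero.1 h6
    rw [← hPv v, ← hPv v', ← hu, ← hu', huu]
  have h7 := Finset.card_le_card_of_injOn f (t := (univ : Finset (F × F)))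
    (fun v _ => mem_univ _) hinj
  refine h7.trans (le_of_eq ?_)
  rw [card_univ, Fintype.card_prod, sq]

/-- the number of the matrices for a given pair of isotropic vectors -/
lemma card_B {G P : Matrix (Fin 3) (Fin 3) F} {s : F} (h2 : (2 : F) ≠ 0)
    (hs : ∀ z : F, z ^ 2 + s ≠ 0) (hG : G.IsSymm) (hG0 : G.det ≠ 0) (hP : P.det ≠ 0)
    (h00 : (Pᵀ * G * P) 0 0 = 0) (h22 : (Pᵀ * G * P) 2 2 = 0) :
    (univ.filter fun B : Matrix (Fin 3) (Fin 3) F => B.IsSymm ∧ ChR G B s 0 ∧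
      (Pᵀ * B * P) 0 0 = 0 ∧ (Pᵀ * B * P) 2 2 = 0).card ≤ Fintype.card F - 1 := by
  obtain ⟨H, hH⟩ : ∃ H, H = Pᵀ * G * P := ⟨_, rfl⟩
  rw [← hH] at h00 h22
  have hsym : ∀ A : Matrix (Fin 3) (Fin 3) F, A.IsSymm → (Pᵀ * A * P).IsSymm := by
    intro A hA
    rw [Matrix.IsSymm, Matrix.transpose_mul, Matrix.transpose_mul, Matrix.transpose_transpose,
      hA.eq, Matrix.mul_assoc]
  have hHs : H.IsSymm := by rw [hH]; exact hsym G hG
  have hHd : H.det ≠ 0 := by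
    rw [hH, Matrix.det_mul, Matrix.det_mul, Matrix.det_transpose]
    exact mul_ne_zero (mul_ne_zero hP hG0) hP
  have hsh : ∀ B : Matrix (Fin 3) (Fin 3) F, B.IsSymm → ChR G B s 0 → (Pᵀ * B * P) 0 0 = 0 →
      (Pᵀ * B * P) 2 2 = 0 → _ := fun B hB hch b0 b2 =>
    shape hs hHs (hsym B hB) h00 h22 b0 b2 hHd (by rw [hH]; exact chR_quad hch)
  have hinj : Set.InjOn (fun B : Matrix (Fin 3) (Fin 3) F => (Pᵀ * B * P) 0 1)
      (univ.filter fun B : Matrix (Fin 3) (Fin 3) F => B.IsSymm ∧ ChR G B s 0 ∧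
      (Pᵀ * B * P) 0 0 = 0 ∧ (Pᵀ * B * P) 2 2 = 0) := by
    intro B hB B' hB' hBB
    have hB1 : B.IsSymm ∧ ChR G B s 0 ∧ (Pᵀ * B * P) 0 0 = 0 ∧ (Pᵀ * B * P) 2 2 = 0 := by
      simpa using hB
    have hB2 : B'.IsSymm ∧ ChR G B' s 0 ∧ (Pᵀ * B' * P) 0 0 = 0 ∧ (Pᵀ * B' * P) 2 2 = 0 := by
      simpa using hB'
    obtain ⟨a1, a2, a3, a4⟩ := hB1
    obtain ⟨b1, b2, b3, b4⟩ := hB2
    obtain ⟨g0, c1, c2, c3, c4⟩ := hsh B a1 a2 a3 a4
    obtain ⟨-, d1, d2, d3, d4⟩ := hsh B' b1 b2 b3 b4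
    have hA := hsym B a1
    have hA' := hsym B' b1
    obtain ⟨A, hAe⟩ : ∃ A, A = Pᵀ * B * P := ⟨_, rfl⟩
    obtain ⟨A', hAe'⟩ : ∃ A', A' = Pᵀ * B' * P := ⟨_, rfl⟩
    have hBB' : (Pᵀ * B * P) 0 1 = (Pᵀ * B' * P) 0 1 := hBB
    rw [← hAe] at a3 a4 c1 c2 c3 c4 hA hBB'
    rw [← hAe'] at b3 b4 d1 d2 d3 d4 hA' hBB'
    have e12 : A 1 2 = A' 1 2 := by
      have h5 : 2 * A' 0 1 * (A 1 2 - A' 1 2) = 0 := by
        rw [hBB'] at c3
        linear_combination c3 - d3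
      have h6 := (mul_eq_zero.1 h5).resolve_left (mul_ne_zero h2 d2)
      exact sub_eq_zero.1 h6
    have e11 : A 1 1 = A' 1 1 := by
      apply mul_right_cancel₀ g0
      rw [c4, d4, e12, hBB']
    have hAA : A = A' := by
      ext i j
      fin_cases i <;> fin_cases j
      · exact a3.trans b3.symm
      · exact hBB'
      · exact c1.trans d1.symm
      · exact (hA.apply 0 1).trans (hBB'.trans (hA'.apply 0 1).symm)
      · exact e11
      · exact e12
      · exact (hA.apply 0 2).trans (c1.trans (d1.symm.trans (hA'.apply 0 2).symm))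
      · exact (hA.apply 1 2).trans (e12.trans (hA'.apply 1 2).symm)
      · exact a4.trans b4.symm
    have hPP : P * P⁻¹ = 1 := Matrix.mul_nonsing_inv P (Ne.isUnit hP)
    have hPt : (Pᵀ)⁻¹ * Pᵀ = 1 := Matrix.nonsing_inv_mul _ (by
      rw [Matrix.det_transpose]
      exact Ne.isUnit hP)
    have hback : ∀ M : Matrix (Fin 3) (Fin 3) F, (Pᵀ)⁻¹ * (Pᵀ * M * P) * P⁻¹ = M := by
      intro M
      rw [Matrix.mul_assoc Pᵀ M P, ← Matrix.mul_assoc (Pᵀ)⁻¹ Pᵀ, hPt, Matrix.one_mul,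
        Matrix.mul_assoc, hPP, Matrix.mul_one]
    rw [← hback B, ← hback B', ← hAe, ← hAe', hAA]
  have h7 := Finset.card_le_card_of_injOn
    (fun B : Matrix (Fin 3) (Fin 3) F => (Pᵀ * B * P) 0 1)
    (t := (univ : Finset F).erase 0) (fun B hB => by
      have hB1 : B.IsSymm ∧ ChR G B s 0 ∧ (Pᵀ * B * P) 0 0 = 0 ∧ (Pᵀ * B * P) 2 2 = 0 := by
        simpa using hB
      obtain ⟨a1, a2, a3, a4⟩ := hB1
      obtain ⟨-, -, c2, -, -⟩ := hsh B a1 a2 a3 a4
      simpa using c2) hinj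
  refine h7.trans (le_of_eq ?_)
  rw [Finset.card_erase_of_mem (mem_univ _), card_univ]

/-- the number of the pairs of isotropic vectors -/
lemma card_pairs {G : Matrix (Fin 3) (Fin 3) F} (h2 : (2 : F) ≠ 0) (hG : G.IsSymm)
    (hG0 : G.det ≠ 0) :
    (univ.filter fun p : (Fin 3 → F) × (Fin 3 → F) => LinearIndependent F ![p.1, p.2] ∧
      p.1 ⬝ᵥ G *ᵥ p.1 = 0 ∧ p.2 ⬝ᵥ G *ᵥ p.2 = 0).card ≤
      (Fintype.card F ^ 2 - Fintype.card F) * (Fintype.card F ^ 2 - 1) := by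
  obtain ⟨I, hI⟩ : ∃ I : Finset (Fin 3 → F), I = univ.filter fun v : Fin 3 → F =>
    v ⬝ᵥ G *ᵥ v = 0 := ⟨_, rfl⟩
  by_cases hne : (univ.filter fun p : (Fin 3 → F) × (Fin 3 → F) =>
      LinearIndependent F ![p.1, p.2] ∧ p.1 ⬝ᵥ G *ᵥ p.1 = 0 ∧ p.2 ⬝ᵥ G *ᵥ p.2 = 0) = ∅
  · rw [hne]
    simp
  obtain ⟨p₀, hp₀⟩ := Finset.nonempty_iff_ne_empty.2 hne
  simp only [mem_filter, mem_univ, true_and] at hp₀
  obtain ⟨P, hP, hP0, hP2⟩ := ext_basis hp₀.1
  have hIc : I.card ≤ Fintype.card F ^ 2 := by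
    rw [hI]
    refine card_iso (P := P) h2 hG hG0 hP ?_ ?_
    · rw [quad_apply, hP0]
      exact hp₀.2.1
    · rw [quad_apply, hP2]
      exact hp₀.2.2
  have h0I : (0 : Fin 3 → F) ∈ I := by
    rw [hI]
    simp
  have hmain := Finset.card_le_mul_card_image_of_maps_to
    (f := fun p : (Fin 3 → F) × (Fin 3 → F) => p.1)
    (s := univ.filter fun p : (Fin 3 → F) × (Fin 3 → F) =>
      LinearIndependent F ![p.1, p.2] ∧ p.1 ⬝ᵥ G *ᵥ p.1 = 0 ∧ p.2 ⬝ᵥ G *ᵥ p.2 = 0)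
    (t := I.erase 0) (fun p hp => by
      simp only [mem_filter, mem_univ, true_and] at hp
      rw [mem_erase, hI]
      simp only [mem_filter, mem_univ, true_and]
      refine ⟨?_, hp.2.1⟩
      have := hp.1.ne_zero 0
      simpa using this)
    (Fintype.card F ^ 2 - Fintype.card F) (fun ξ hξ => by
      rw [mem_erase, hI] at hξ
      simp only [mem_filter, mem_univ, true_and] at hξ
      obtain ⟨hξ0, hξG⟩ := hξ
      have hsp : (univ.image fun a : F => a • ξ) ⊆ I := by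
        intro v hv
        obtain ⟨a, -, rfl⟩ := mem_image.1 hv
        rw [hI]
        simp only [mem_filter, mem_univ, true_and]
        rw [Matrix.mulVec_smul, smul_dotProduct, dotProduct_smul, hξG, smul_zero, smul_zero]
      have hspc : (univ.image fun a : F => a • ξ).card = Fintype.card F := by
        rw [card_image_of_injective, card_univ]
        exact smul_left_injective F hξ0
      have h1 : ((univ.filter fun p : (Fin 3 → F) × (Fin 3 → F) =>
          LinearIndependent F ![p.1, p.2] ∧ p.1 ⬝ᵥ G *ᵥ p.1 = 0 ∧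
          p.2 ⬝ᵥ G *ᵥ p.2 = 0).filter fun p => p.1 = ξ).card ≤
          (I \ univ.image fun a : F => a • ξ).card := by
        refine Finset.card_le_card_of_injOn (fun p => p.2) (fun p hp => ?_) ?_
        · have hp' : ((LinearIndependent F ![p.1, p.2] ∧ p.1 ⬝ᵥ G *ᵥ p.1 = 0 ∧
              p.2 ⬝ᵥ G *ᵥ p.2 = 0) ∧ p.1 = ξ) := by simpa using hp
          obtain ⟨⟨g1, -, g3⟩, g4⟩ := hp'
          rw [g4, LinearIndependent.pair_iff' hξ0] at g1
          show p.2 ∈ ((I \ univ.image fun a : F => a • ξ : Finset (Fin 3 → F)) : Set (Fin 3 → F))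
          rw [mem_coe, mem_sdiff, hI]
          simp only [mem_filter, mem_univ, true_and, mem_image, not_exists]
          exact ⟨g3, g1⟩
        · intro p hp p' hp' hpp
          have g1 : p.1 = ξ := (mem_filter.1 (mem_coe.1 hp)).2
          have g2 : p'.1 = ξ := (mem_filter.1 (mem_coe.1 hp')).2
          exact Prod.ext (g1.trans g2.symm) hpp
      refine h1.trans ?_
      rw [Finset.card_sdiff_of_subset hsp, hspc]
      exact Nat.sub_le_sub_right hIc _)
  refine hmain.trans ?_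
  refine Nat.mul_le_mul_left _ ?_
  rw [Finset.card_erase_of_mem h0I]
  exact Nat.sub_le_sub_right hIc _

end two

/-- Part LQ -/
theorem lq : S_LQ := by
  intro F _ _ h2 s hs G hG hG0
  have := Fintype.ofFinite F
  obtain ⟨q, hq⟩ : ∃ q : ℕ, q = Fintype.card F := ⟨_, rfl⟩
  have hq2 : 1 < q := by rw [hq]; exact Fintype.one_lt_card
  obtain ⟨S, hS⟩ : ∃ S : Finset (Matrix (Fin 3) (Fin 3) F), S =
    univ.filter fun B : Matrix (Fin 3) (Fin 3) F => B.IsSymm ∧ ChR G B s 0 ∧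
    ∃ ξ ξ' : Fin 3 → F, LinearIndependent F ![ξ, ξ'] ∧ ξ ⬝ᵥ G *ᵥ ξ = 0 ∧ ξ ⬝ᵥ B *ᵥ ξ = 0 ∧
      ξ' ⬝ᵥ G *ᵥ ξ' = 0 ∧ ξ' ⬝ᵥ B *ᵥ ξ' = 0 := ⟨_, rfl⟩
  rw [Nat.card_eq_fintype_card, Fintype.card_subtype, Nat.card_eq_fintype_card, ← hS, ← hq]
  obtain ⟨prs, hprs⟩ : ∃ prs : Finset ((Fin 3 → F) × (Fin 3 → F)), prs =
    univ.filter fun p : (Fin 3 → F) × (Fin 3 → F) => LinearIndependent F ![p.1, p.2] ∧
      p.1 ⬝ᵥ G *ᵥ p.1 = 0 ∧ p.2 ⬝ᵥ G *ᵥ p.2 = 0 := ⟨_, rfl⟩
  have hpc : prs.card ≤ (q ^ 2 - q) * (q ^ 2 - 1) := by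
    rw [hprs, hq]
    exact card_pairs h2 hG hG0
  have hdc := Finset.card_nsmul_le_card_nsmul (s := S) (t := prs) (m := 2 * (q - 1) ^ 2)
    (n := q - 1) (fun (B : Matrix (Fin 3) (Fin 3) F) (p : (Fin 3 → F) × (Fin 3 → F)) =>
      p.1 ⬝ᵥ B *ᵥ p.1 = 0 ∧ p.2 ⬝ᵥ B *ᵥ p.2 = 0) (by
      intro B hB
      rw [hS] at hB
      simp only [mem_filter, mem_univ, true_and] at hB
      obtain ⟨-, -, ξ, ξ', hli, g1, b1, g2, b2⟩ := hB
      have hsm : ∀ (M : Matrix (Fin 3) (Fin 3) F) (v : Fin 3 → F) (a : F), v ⬝ᵥ M *ᵥ v = 0 →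
          (a • v) ⬝ᵥ M *ᵥ (a • v) = 0 := by
        intro M v a h
        rw [Matrix.mulVec_smul, smul_dotProduct, dotProduct_smul, h, smul_zero, smul_zero]
      have hli' := LinearIndependent.pair_iff.1 hli
      have hli2 : ∀ a b : Fˣ, LinearIndependent F ![(a : F) • ξ, (b : F) • ξ'] := by
        intro a b
        rw [LinearIndependent.pair_iff]
        intro x y hxy
        rw [smul_smul, smul_smul] at hxy
        obtain ⟨e1, e2⟩ := hli' _ _ hxy
        exact ⟨(mul_eq_zero.1 e1).resolve_right a.ne_zero,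
          (mul_eq_zero.1 e2).resolve_right b.ne_zero⟩
      have hli3 : ∀ a b : Fˣ, LinearIndependent F ![(b : F) • ξ', (a : F) • ξ] := by
        intro a b
        rw [LinearIndependent.pair_iff]
        intro x y hxy
        rw [smul_smul, smul_smul, add_comm] at hxy
        obtain ⟨e1, e2⟩ := hli' _ _ hxy
        exact ⟨(mul_eq_zero.1 e2).resolve_right b.ne_zero,
          (mul_eq_zero.1 e1).resolve_right a.ne_zero⟩
      have hcard : (univ : Finset (Bool × Fˣ × Fˣ)).card = 2 * (q - 1) ^ 2 := by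
        rw [card_univ, Fintype.card_prod, Fintype.card_prod, Fintype.card_bool,
          Fintype.card_units, ← hq, sq]
      rw [← hcard]
      refine Finset.card_le_card_of_injOn (fun x : Bool × Fˣ × Fˣ =>
        if x.1 then ((x.2.1 : F) • ξ, (x.2.2 : F) • ξ') else ((x.2.2 : F) • ξ', (x.2.1 : F) • ξ))
        (fun x _ => ?_) ?_
      · obtain ⟨x0, x1, x2⟩ := x
        cases x0
        · simp only [Finset.bipartiteAbove, coe_filter, Set.mem_ofPred_eq, hprs, mem_filter,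
            mem_univ, true_and]
          exact ⟨⟨hli3 x1 x2, hsm _ _ _ g2, hsm _ _ _ g1⟩, hsm _ _ _ b2, hsm _ _ _ b1⟩
        · simp only [Finset.bipartiteAbove, coe_filter, Set.mem_ofPred_eq, hprs, mem_filter,
            mem_univ, true_and]
          exact ⟨⟨hli2 x1 x2, hsm _ _ _ g1, hsm _ _ _ g2⟩, hsm _ _ _ b1, hsm _ _ _ b2⟩
      · have hξ : ξ ≠ 0 := by simpa using hli.ne_zero 0
        have hξ' : ξ' ≠ 0 := by simpa using hli.ne_zero 1
        have hcross : ∀ a b : Fˣ, (a : F) • ξ ≠ (b : F) • ξ' := by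
          intro a b h
          have e1 : (a : F) • ξ + (-(b : F)) • ξ' = 0 := by
            rw [h, neg_smul, add_neg_cancel]
          exact a.ne_zero (hli' _ _ e1).1
        rintro ⟨x0, x1, x2⟩ - ⟨y0, y1, y2⟩ - hxy
        cases x0 <;> cases y0 <;> simp only [if_true, Bool.false_eq_true, if_false,
          Prod.mk.injEq] at hxy
        · have e1 := smul_left_injective F hξ' hxy.1
          have e2 := smul_left_injective F hξ hxy.2
          rw [Units.ext e1, Units.ext e2]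
        · exact absurd hxy.1.symm (hcross _ _)
        · exact absurd hxy.1 (hcross _ _)
        · have e1 := smul_left_injective F hξ hxy.1
          have e2 := smul_left_injective F hξ' hxy.2
          rw [Units.ext e1, Units.ext e2]) (by
      intro p hp
      rw [hprs] at hp
      simp only [mem_filter, mem_univ, true_and] at hp
      obtain ⟨hli, g1, g2⟩ := hp
      obtain ⟨P, hP, hP0, hP2⟩ := ext_basis hli
      have h00 : (Pᵀ * G * P) 0 0 = 0 := by rw [quad_apply, hP0]; exact g1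
      have h22 : (Pᵀ * G * P) 2 2 = 0 := by rw [quad_apply, hP2]; exact g2
      refine le_trans (Finset.card_le_card ?_)
        (by rw [hq]; exact card_B h2 hs hG hG0 hP h00 h22)
      intro B hB
      rw [Finset.bipartiteBelow, mem_filter, hS] at hB
      simp only [mem_filter, mem_univ, true_and] at hB ⊢
      refine ⟨hB.1.1, hB.1.2.1, ?_, ?_⟩
      · rw [quad_apply, hP0]
        exact hB.2.1
      · rw [quad_apply, hP2]
        exact hB.2.2)
  rw [smul_eq_mul, smul_eq_mul] at hdc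
  have h3 : S.card * (2 * (q - 1) ^ 2) ≤ (q ^ 2 - q) * (q ^ 2 - 1) * (q - 1) :=
    hdc.trans (Nat.mul_le_mul_right _ hpc)
  obtain ⟨k, rfl⟩ : ∃ k, q = k + 1 := ⟨q - 1, by omega⟩
  have hk : 0 < k := by omega
  have e1 : (k + 1) ^ 2 - (k + 1) = (k + 1) * k := by
    have : (k + 1) ^ 2 = (k + 1) * k + (k + 1) := by ring
    omega
  have e2 : (k + 1) ^ 2 - 1 = k * (k + 2) := by
    have : (k + 1) ^ 2 = k * (k + 2) + 1 := by ring
    omega
  rw [e1, e2, Nat.add_sub_cancel] at h3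
  have h4 : k ^ 2 * (2 * S.card) ≤ k ^ 2 * (k * (k + 1) * (k + 2)) := by
    calc k ^ 2 * (2 * S.card) = S.card * (2 * k ^ 2) := by ring
      _ ≤ (k + 1) * k * (k * (k + 2)) * k := h3
      _ = k ^ 2 * (k * (k + 1) * (k + 2)) := by ring
  have h5 := Nat.le_of_mul_le_mul_left h4 (by positivity)
  refine h5.trans ?_
  nlinarith

end Pool.Agent.H588.AR458
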